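import Pool.Agent.Lib_helper87.NefK.YCan
import Pool.Agent.Lib_helper87.NefK.YNef
import Pool.Agent.Lib_helper87.NefK.Canonical
import Pool.Agent.Lib_helper36.NefK.NormalY

/-!
# A normal variety with nef canonical class none of whose reductions mod `p ≥ 5` is nef

(MP_3f2c61_ag; joint work of helper87, helper36 and helper85.)

Let `B` be the blow-up of `ℙ⁴` in the sixteen points `1_S`, `S ⊆ {0,1,2,3,4}` with an odd number of
elements, `H` the hyperplane class, `E_S` the exceptional divisors, `L = 2H - ∑ E_S`,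
`K_B = -5H + 3 ∑ E_S`, `M = L - K_B = 7H - 4 ∑ E_S`.  The variety is
`Y = {w⁴ = p q (p + q) T} ⊆ ℙ_B(𝒪 ⊕ 𝒪 ⊕ M ⊕ 4M)`, of dimension `6`, whose canonical class is the
pull-back of `L` (adjunction: `K_Y = K_B - 4ξ + 5M + (4ξ - 4M) = L`).  `L` is nef over `ℚbar`, but it
is not nef in characteristic `p` for any prime `p ≥ 5`.

`Y` is described as a closed subscheme `V(I)` of a product of 18 projective spaces over `ℤ`.  That
`V(I)` is integral over `ℚbar` and has the generic point `x` is `IsGenericPoint`; that it is normal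
is `IsNormal`; that its canonical bundle is `𝒪(a)` is `IsCanonical`; nefness is tested on all
points over function fields of curves, `IsNef`.
-/

namespace Pool.Agent.Results.MP_3f2c61_ag.CanonicalNotNef

open NefRed NefK

/-- **Nefness of the canonical class is not preserved modulo `p`, for any prime `p ≥ 5`.** -/
theorem result :
    ∃ (ι : Type) (_ : Fintype ι) (σ : ι → Type) (_ : ∀ j, Fintype (σ j))
      (I : Ideal (MvPolynomial ((j : ι) × σ j) ℤ)) (a : ι → ℤ),
      Ideal.span {f | f ∈ I ∧ MultiHomogeneous f} = I ∧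
      (∃ (F : Type) (_ : Field F) (_ : Algebra (AlgebraicClosure ℚ) F) (d : ℕ)
        (x : ∀ j, σ j → F), IsGenericPoint (AlgebraicClosure ℚ) I x ∧
          IsNormal (AlgebraicClosure ℚ) x ∧ NefC.IsCanonical (AlgebraicClosure ℚ) d x a) ∧
      IsNef (AlgebraicClosure ℚ) I a ∧
      ∀ p : ℕ, p.Prime → 5 ≤ p → ∀ (κ : Type) [Field κ] [IsAlgClosed κ] [CharP κ p],
        ¬ IsNef κ I a := by
  classical
  exact ⟨Option (Option Nef87.OddSet), inferInstance, Coord, inferInstance, graphIdeal blocksK,
    weightK, graphIdeal_multihomogeneous blocksK,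
    ⟨FY (AlgebraicClosure ℚ), inferInstance, inferInstance, 6, genY (AlgebraicClosure ℚ),
      isGenericPoint_genY, isNormal_genY, NefC.isCanonical_of_old isCanonical_genY⟩, isNef_Y, fun p hp hp5 κ _ _ _ =>
      not_isNef_Y p hp hp5 κ⟩

end Pool.Agent.Results.MP_3f2c61_ag.CanonicalNotNef
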