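import Pool.Agent.Lib_helper87.Nef.XPoints

/-!
# A nef line bundle none of whose reductions mod `p`, `p ≥ 5`, is nef (MP_3f2c61_ag)

Joint work of helper87, helper36 and helper85.

We work with closed subschemes of `∏_{j ∈ ι} ℙ^σ` (homogeneous coordinates `(x_{j,l})_{l ∈ σ}` on
the `j`-th factor) over `ℤ`, given by ideals of `ℤ[x_{j,l}]` generated by multihomogeneous
polynomials, and with the line bundles `𝒪(a)`, `a : ι → ℤ`.

For an algebraically closed field `k` a line bundle on a complete variety is nef iff its pull-back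
to every smooth projective curve `C` over `k`, along every morphism `f : C → X`, has nonnegative
degree.  Morphisms `C → X` are the same as points of `X` over the function field `K` of `C`, and
the degree of the pull-back of `𝒪(1)` under the point `(x_l)_l` of projective space over `K` is
`∑_v - min_l ord_v (x_l)`, the sum over all places `v` of `K/k`.  This is how nefness is tested
here (`IsNef`).

The variety is the closure of the graph of the sixteen linear projections of `ℙ⁴` from the points
`1_S`, `S ⊆ {0,1,2,3,4}` with an odd number of elements, i.e. the blow-up `X` of `ℙ⁴` in these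
sixteen points, embedded in `ℙ⁴ × (ℙ⁴)¹⁶`; the line bundle is `𝒪(-14; 1,…,1)`, i.e. `2 H - ∑_S E_S`.
-/

namespace Pool.Agent.Results.MP_3f2c61_ag.NotNefModP

open NefRed Nef87

/-- `x` represents a `K`-valued point of the closed subscheme of `∏_{j ∈ ι} ℙ^σ` defined by the
ideal `I`: in each factor not all coordinates are zero, and all the elements of `I` vanish. -/
def IsPoint {ι σ : Type} (I : Ideal (MvPolynomial (ι × σ) ℤ)) {K : Type} [Field K]
    (x : ι → σ → K) : Prop :=
  (∀ j, ∃ l, x j l ≠ 0) ∧
    ∀ f ∈ I, MvPolynomial.aeval (fun jl : ι × σ => x jl.1 jl.2) f = 0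

/-- The line bundle `𝒪(a)` on the closed subscheme of `∏_{j ∈ ι} ℙ^σ` over the algebraically closed
field `k` defined by the ideal `I` is nef: for every function field `K/k` of one variable (of a
smooth projective curve `C`) and every `K`-valued point (morphism from `C`), the degree of the
pull-back of `𝒪(a)` is nonnegative. -/
def IsNef {ι σ : Type} [Fintype ι] [Fintype σ] (k : Type) [Field k]
    (I : Ideal (MvPolynomial (ι × σ) ℤ)) (a : ι → ℤ) : Prop :=
  ∀ (K : Type) [Field K] [Algebra k K], IsFunctionField k K →
    ∀ x : ι → σ → K, IsPoint I x → 0 ≤ ∑ j, a j * degO1 k (x j)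

/-- The multidegree of our line bundle: `-14` on the first factor, `1` on the sixteen others. -/
def weight : Option OddSet → ℤ
  | none => -14
  | some _ => 1

/-- **A nef line bundle whose reduction is not nef modulo any prime `p ≥ 5`.** -/
theorem result :
    Ideal.span {f | f ∈ graphIdeal blocks ∧ MultiHomogeneous f} = graphIdeal blocks ∧
    ((graphIdeal blocks).map
      (MvPolynomial.map (Int.castRingHom (AlgebraicClosure ℚ)))).IsPrime ∧
    (∃ x : Option OddSet → Fin 5 → AlgebraicClosure ℚ, IsPoint (graphIdeal blocks) x) ∧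
    IsNef (AlgebraicClosure ℚ) (graphIdeal blocks) weight ∧
    ∀ p : ℕ, p.Prime → 5 ≤ p → ∀ (κ : Type) [Field κ] [IsAlgClosed κ] [CharP κ p],
      ¬ IsNef κ (graphIdeal blocks) weight := by
  classical
  refine ⟨graphIdeal_multihomogeneous blocks, graphIdeal_isPrime _ blocks, ?_, ?_, ?_⟩
  · let y : Fin 5 → AlgebraicClosure ℚ := fun i => (i : ℕ) + 2
    refine ⟨evalBlocks y, evalBlocks_ne y ⟨0, by simp [y]⟩ ?_, evalBlocks_mem y⟩
    intro S
    by_cases h0 : (0 : Fin 5) ∈ S.1
    · by_cases h1 : (1 : Fin 5) ∈ S.1
      · refine ⟨1, ?_⟩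
        have hmin : S.1.min' S.nonempty = 0 :=
          le_antisymm (Finset.min'_le _ _ h0) (Fin.zero_le _)
        rw [projS, if_pos h1, hmin]
        simp [y]
      · refine ⟨1, ?_⟩
        rw [projS, if_neg h1]
        simp only [y]
        norm_cast
    · refine ⟨0, ?_⟩
      rw [projS, if_neg h0]
      simp [y]
  · intro K _ _ hK x hx
    rw [Fintype.sum_option]
    have h := nonneg_point K hK x hx.1 hx.2
    simp only [weight, one_mul]
    linarith
  · intro p hp hp5 κ _ _ _ hnef
    obtain ⟨m', hm'⟩ := hp.odd_of_ne_two (by omega)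
    obtain ⟨m, rfl⟩ : ∃ m, p = 2 * m + 3 := ⟨m' - 1, by omega⟩
    have : Fact (2 * m + 3).Prime := ⟨hp⟩
    obtain ⟨K, fK, aK, aR, tK, fdK, sepK, y, hy, hS, hneg⟩ := exists_negative κ (m := m) (by omega)
    have h := hnef K (isFunctionField_of_ratFunc κ K) (evalBlocks y)
      ⟨evalBlocks_ne y hy hS, evalBlocks_mem y⟩
    rw [Fintype.sum_option] at h
    simp only [weight, one_mul, evalBlocks_none, evalBlocks_some] at h
    linarith

end Pool.Agent.Results.MP_3f2c61_ag.NotNefModP
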